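import Pool.Agent.V5helper6.IK.MOM

/-! Project IK, job MAS -/

set_option autoImplicit false

namespace Pool.Agent.V5helper6.IK

open MeasureTheory Set Filter Topology
open scoped ENNReal InnerProductSpace
open Pool.Agent.V5helper78.IK

variable {n : ℕ} {g : E n → ℝ}

theorem numeric : 4 + Real.log 2 + Real.log Real.pi ≤ Real.log 400 := by
  have hpi := Real.pi_pos
  have h4 : Real.log (Real.exp 4) = 4 := Real.log_exp 4
  have e : 4 + Real.log 2 + Real.log Real.pi = Real.log (Real.exp 4 * (2 * Real.pi)) := by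
    rw [Real.log_mul (Real.exp_pos _).ne' (by positivity), Real.log_mul (by norm_num) hpi.ne', h4]
    ring
  rw [e]
  refine Real.log_le_log (by positivity) ?_
  have he : Real.exp 4 = Real.exp 1 ^ 4 := by
    rw [← Real.exp_nat_mul]; norm_num
  have h1 := Real.exp_one_lt_d9
  have h2 : Real.exp 1 ^ 4 ≤ 2.7182818286 ^ 4 :=
    pow_le_pow_left₀ (Real.exp_pos 1).le h1.le 4
  have h3 := Real.pi_lt_d4
  rw [he]
  calc Real.exp 1 ^ 4 * (2 * Real.pi) ≤ 2.7182818286 ^ 4 * (2 * 3.1416) := by
        refine mul_le_mul h2 (by linarith) (by positivity) (by positivity)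
    _ ≤ 400 := by norm_num

theorem t_MAS (hINT : S_INT) (hVOL : S_VOL) (hDET : S_DET) (hMOM : S_MOM) (hGAM : S_GAM) :
    S_MAS := by
  intro n g ε L A T hn hg hε hε2 hL hMx hT1 hT2
  have hnr : (1 : ℝ) ≤ n := by exact_mod_cast hn
  have hn0 : (0 : ℝ) < n := by linarith
  have hL0 : (0 : ℝ) < L := by linarith
  have hpi := Real.pi_pos
  set V := (volume {x : E n | g x ≤ 1}).toReal with hV
  set Γ := Real.Gamma ((n : ℝ) / 2 + 1) with hΓ
  have hΓ0 : 0 < Γ := Real.Gamma_pos_of_pos (by positivity)
  have hV0 : 0 ≤ V := ENNReal.toReal_nonneg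
  have hVpos : 0 < V := by
    rcases hV0.eq_or_lt with h | h
    · rw [← h, mul_zero] at hT2; linarith
    · exact h
  have hdT : 0 < |T.det| := by
    rcases (abs_nonneg T.det).eq_or_lt with h | h
    · rw [← h, mul_zero, zero_mul] at hT2; linarith
    · exact h
  -- nonnegativity of `F`
  have hFnn : ∀ B : E n →L[ℝ] E n, 0 ≤ F g B := fun B =>
    integral_nonneg fun x => (Real.exp_pos _).le
  -- `F₀`
  have hset : {x : E n | En g 0 x ≤ 1} = {x : E n | g x ≤ 1} := by
    ext x
    simp only [En, mem_ofPred_eq, _root_.zero_apply, norm_zero]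
    have := nonneg hg x
    constructor
    · intro h
      nlinarith
    · intro h
      have : g x ^ 2 ≤ 1 := pow_le_one₀ this h
      linarith
  have hF0 : F g 0 = Γ * V := by
    have h := hVOL n g 0 hn hg
    rw [hset] at h
    rw [hV, h, ENNReal.toReal_ofReal (div_nonneg (hFnn 0) hΓ0.le), mul_div_cancel₀ _ hΓ0.ne']
  have hF0pos : 0 < F g 0 := by rw [hF0]; positivity
  -- the competitor
  set η : ℝ := Real.sqrt (ε / n) with hη
  have hη0 : 0 < η := Real.sqrt_pos.2 (by positivity)
  have hη2 : η ^ 2 = ε / n := Real.sq_sqrt (by positivity)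
  set B : E n →L[ℝ] E n := η • T with hB
  have hint0 : Integrable (fun x : E n => Real.exp (-(g x ^ 2))) := by
    have h := hINT n g 0 0 hg
    simpa [En] using h
  have hint2 : Integrable (fun x : E n => ‖B x‖ ^ 2 * Real.exp (-(g x ^ 2))) := by
    have h := (hINT n g 0 2 hg).const_mul (‖B‖ ^ 2)
    refine Integrable.mono' h ?_ (Eventually.of_forall fun x => ?_)
    · have hgm : Measurable g := hg.cont.measurable
      fun_prop
    · rw [Real.norm_of_nonneg (by positivity)]
      have h1 : ‖B x‖ ^ 2 ≤ ‖B‖ ^ 2 * ‖x‖ ^ 2 := by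
        rw [← mul_pow]
        exact pow_le_pow_left₀ (norm_nonneg _) (B.le_opNorm x) 2
      have h2 : Real.exp (-(En g 0 x)) = Real.exp (-(g x ^ 2)) := by simp [En]
      rw [h2, ← mul_assoc]
      exact mul_le_mul_of_nonneg_right h1 (Real.exp_pos _).le
  have hF0' : F g 0 = ∫ x : E n, Real.exp (-(g x ^ 2)) := by simp [F, En]
  set q : ℝ := (∫ x : E n, ‖B x‖ ^ 2 * Real.exp (-(g x ^ 2))) / F g 0 with hq
  have hq1 : q ≤ 3 / 2 * (ε * n) := by
    rw [hq, div_le_iff₀ hF0pos]
    have e1 : ∫ x : E n, ‖B x‖ ^ 2 * Real.exp (-(g x ^ 2)) =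
        η ^ 2 * ∫ x : E n, ‖T x‖ ^ 2 * Real.exp (-(g x ^ 2)) := by
      rw [← integral_const_mul]
      refine integral_congr_ae (Eventually.of_forall fun x => ?_)
      simp only [hB, _root_.smul_apply, norm_smul, mul_pow, Real.norm_eq_abs, sq_abs]
      ring
    have e2 : Real.Gamma ((n : ℝ) / 2 + 2) = ((n : ℝ) / 2 + 1) * Γ := by
      have : (n : ℝ) / 2 + 2 = ((n : ℝ) / 2 + 1) + 1 := by ring
      rw [this, Real.Gamma_add_one (by positivity)]
    rw [e1, hMOM n g T hn hg, e2, hη2, hF0]
    have h1 : ((n : ℝ) / 2 + 1) * Γ * ∫ x in {x : E n | g x ≤ 1}, ‖T x‖ ^ 2 ≤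
        ((n : ℝ) / 2 + 1) * Γ * (n * V) := mul_le_mul_of_nonneg_left hT1 (by positivity)
    calc ε / n * (((n : ℝ) / 2 + 1) * Γ * ∫ x in {x : E n | g x ≤ 1}, ‖T x‖ ^ 2)
        ≤ ε / n * (((n : ℝ) / 2 + 1) * Γ * (n * V)) := mul_le_mul_of_nonneg_left h1 (by positivity)
      _ = ε * ((n : ℝ) / 2 + 1) * (Γ * V) := by field_simp
      _ ≤ 3 / 2 * (ε * n) * (Γ * V) := by
          refine mul_le_mul_of_nonneg_right ?_ (by positivity)
          nlinarith
  have hJ : F g 0 * Real.exp (-q) ≤ F g B := by
    have h1 : ∫ x : E n, Real.exp (-q) * ((1 + q) * Real.exp (-(g x ^ 2)) -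
        ‖B x‖ ^ 2 * Real.exp (-(g x ^ 2))) = F g 0 * Real.exp (-q) := by
      rw [integral_const_mul, integral_sub (hint0.const_mul _) hint2, integral_const_mul, ← hF0']
      have : ∫ x : E n, ‖B x‖ ^ 2 * Real.exp (-(g x ^ 2)) = q * F g 0 := by
        rw [hq, div_mul_cancel₀ _ hF0pos.ne']
      rw [this]
      ring
    rw [← h1]
    unfold F
    refine integral_mono (((hint0.const_mul _).sub hint2).const_mul _) ?_ fun x => ?_
    · have h := hINT n g B 0 hg
      simpa using h
    · have h2 := Real.add_one_le_exp (q - ‖B x‖ ^ 2)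
      have h3 : Real.exp (-(En g B x)) =
          Real.exp (-q) * (Real.exp (q - ‖B x‖ ^ 2) * Real.exp (-(g x ^ 2))) := by
        rw [← Real.exp_add, ← Real.exp_add]
        congr 1
        unfold En
        ring
      rw [h3]
      refine mul_le_mul_of_nonneg_left ?_ (Real.exp_pos _).le
      have h4 := mul_le_mul_of_nonneg_right h2 (Real.exp_pos (-(g x ^ 2))).le
      linarith
  have hBdet : |B.det| = η ^ n * |T.det| := by
    have h1 : B.det = η ^ n * T.det := by
      rw [hB]
      unfold ContinuousLinearMap.det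
      rw [ContinuousLinearMap.toLinearMap_smul, LinearMap.det_smul, finrank_euclideanSpace_fin]
    rw [h1, abs_mul, abs_of_pos (by positivity)]
  have hFB : 0 < F g B := lt_of_lt_of_le (by positivity) hJ
  have hBdet0 : 0 < |B.det| := by rw [hBdet]; positivity
  have hA0 : 0 < |A.det| := abs_pos.2 hMx.det
  have hmax := hMx.max B
  have hFA : 0 < F g A := by
    have h1 : 0 < F g B * |B.det| ^ ε := by positivity
    rcases (hFnn A).eq_or_lt with h | h
    · rw [← h, zero_mul] at hmax; linarith
    · exact h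
  -- logarithms
  have l1 : Real.log (F g B) + ε * Real.log |B.det| ≤ Real.log (F g A) + ε * Real.log |A.det| := by
    have h := Real.log_le_log (by positivity) hmax
    rwa [Real.log_mul hFB.ne' (by positivity), Real.log_mul hFA.ne' (by positivity),
      Real.log_rpow hBdet0, Real.log_rpow hA0] at h
  have l2 : Real.log |A.det| + Real.log (F g A) ≤ (n : ℝ) / 2 * Real.log Real.pi := by
    have h := Real.log_le_log (by positivity) (hDET n g A hg)
    rwa [Real.log_mul hA0.ne' hFA.ne', Real.log_rpow hpi] at h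
  have l3 : Real.log (F g 0) - 3 / 2 * (ε * n) ≤ Real.log (F g B) := by
    have h := Real.log_le_log (by positivity) hJ
    rw [Real.log_mul hF0pos.ne' (Real.exp_pos _).ne', Real.log_exp] at h
    linarith
  have l4 : Real.log |B.det| = n * Real.log η + Real.log |T.det| := by
    rw [hBdet, Real.log_mul (by positivity) hdT.ne', Real.log_pow]
  have l4' : Real.log η = (Real.log ε - Real.log n) / 2 := by
    rw [hη, Real.log_sqrt (by positivity), Real.log_div hε.ne' hn0.ne']
  have l5 : 0 ≤ n * Real.log L + Real.log |T.det| + Real.log V := by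
    have h := Real.log_nonneg hT2
    rwa [Real.log_mul (by positivity) hVpos.ne', Real.log_mul (by positivity) hdT.ne',
      Real.log_pow] at h
  have l6 : Real.log (F g 0) = Real.log Γ + Real.log V := by
    rw [hF0, Real.log_mul hΓ0.ne' hVpos.ne']
  have l7 : (n : ℝ) / 2 * (Real.log n - Real.log 2 - 1) ≤ Real.log Γ := by
    have h := Real.log_le_log (by positivity) (hGAM n hn)
    rw [Real.log_rpow (by positivity), Real.log_div hn0.ne' (by positivity),
      Real.log_mul (by norm_num) (Real.exp_pos 1).ne', Real.log_exp] at h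
    linarith
  have l8 := numeric
  have lL : 0 ≤ Real.log L := Real.log_nonneg hL
  have lε : Real.log ε ≤ 0 := Real.log_nonpos hε.le (by linarith)
  have l400 : 0 ≤ Real.log 400 := Real.log_nonneg (by norm_num)
  set K : ℝ := Real.log ε - Real.log 400 - 2 * Real.log L with hK
  have hK0 : K ≤ 0 := by rw [hK]; linarith
  have hεn : 0 < ε * n := by positivity
  -- `(1 - ε) Δ ≥ (ε n / 2) K`
  have m1 : (1 - ε) * (Real.log (F g A) - Real.log (F g 0)) ≥ ε * n / 2 * K := by
    have a1 := mul_le_mul_of_nonneg_left l2 hε.le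
    have a2 := mul_le_mul_of_nonneg_left l5 hε.le
    have a3 := mul_le_mul_of_nonneg_left l7 hε.le
    have a4 := mul_le_mul_of_nonneg_left l8 (show (0 : ℝ) ≤ ε * n / 2 by positivity)
    have a5 : ε * Real.log (F g 0) = ε * (Real.log Γ + Real.log V) := by rw [l6]
    rw [l4, l4'] at l1
    rw [hK]
    linarith
  have m2 : ε * n * K ≤ Real.log (F g A) - Real.log (F g 0) := by
    rcases le_or_gt 0 (Real.log (F g A) - Real.log (F g 0)) with h | h
    · exact (mul_nonpos_of_nonneg_of_nonpos hεn.le hK0).trans h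
    · nlinarith
  -- back
  have hpos : 0 < ε / (400 * L ^ 2) := by positivity
  have hlog : Real.log (ε / (400 * L ^ 2)) = K := by
    rw [Real.log_div hε.ne' (by positivity), Real.log_mul (by norm_num) (by positivity),
      Real.log_pow, hK]
    push_cast
    ring
  have hfin : Real.log ((ε / (400 * L ^ 2)) ^ (ε * n) * F g 0) ≤ Real.log (F g A) := by
    rw [Real.log_mul (by positivity) hF0pos.ne', Real.log_rpow hpos, hlog]
    linarith
  exact (Real.log_le_log_iff (by positivity) hFA).1 hfin

end Pool.Agent.V5helper6.IK
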