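import Pool.Agent.V5helper78.IK.Stm

/-! Project IK, job MOM -/

set_option autoImplicit false

namespace Pool.Agent.V5helper6.IK

open MeasureTheory Set Filter Topology
open scoped ENNReal InnerProductSpace
open Pool.Agent.V5helper78.IK

variable {n : ℕ} {g : E n → ℝ}

theorem nonneg (hg : Nm g) (x : E n) : 0 ≤ g x := by
  obtain ⟨c, hc, h⟩ := hg.low
  exact (mul_nonneg hc.le (norm_nonneg x)).trans (h x)

/-- the layer cake formula for one value -/
theorem layer (c : ℝ) (hc : 0 ≤ c) :
    ∫⁻ t in Ioi (0 : ℝ), (Ici c).indicator (fun t => ENNReal.ofReal (Real.exp (-t))) t =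
      ENNReal.ofReal (Real.exp (-c)) := by
  rw [lintegral_indicator measurableSet_Ici, Measure.restrict_restrict measurableSet_Ici]
  have h1 : (Ici c ∩ Ioi (0 : ℝ) : Set ℝ) =ᵐ[volume] Ioi c := by
    have h2 : (Ici c : Set ℝ) =ᵐ[volume] Ioi c := Ioi_ae_eq_Ici.symm
    have h3 : (Ici c ∩ Ioi (0 : ℝ) : Set ℝ) =ᵐ[volume] (Ioi c ∩ Ioi (0 : ℝ) : Set ℝ) :=
      h2.inter (ae_eq_refl _)
    rw [Ioi_inter_Ioi, sup_eq_left.2 hc] at h3
    exact h3
  rw [Measure.restrict_congr_set h1, ← integral_exp_neg_Ioi c,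
    ofReal_integral_eq_lintegral_ofReal]
  · exact integrableOn_exp_neg_Ioi c
  · exact Eventually.of_forall fun t => (Real.exp_pos _).le

/-- scaling -/
theorem scale (hg : Nm g) (T : E n →L[ℝ] E n) (t : ℝ) (ht : 0 < t) :
    ∫⁻ x in {x | g x ^ 2 ≤ t}, ENNReal.ofReal (‖T x‖ ^ 2) =
      ENNReal.ofReal (t ^ ((n : ℝ) / 2 + 1)) *
        ∫⁻ x in {x | g x ≤ 1}, ENNReal.ofReal (‖T x‖ ^ 2) := by
  have hr : 0 < Real.sqrt t := Real.sqrt_pos.2 ht
  set r := Real.sqrt t with hrdef
  have hr2 : r ^ 2 = t := Real.sq_sqrt ht.le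
  have hm1 : MeasurableSet {x : E n | g x ^ 2 ≤ t} :=
    (isClosed_le (hg.cont.pow 2) continuous_const).measurableSet
  have hm2 : MeasurableSet {x : E n | g x ≤ 1} :=
    (isClosed_le hg.cont continuous_const).measurableSet
  have hmT : Measurable fun x : E n => ENNReal.ofReal (‖T x‖ ^ 2) := by fun_prop
  have hmap := Measure.map_addHaar_smul (volume : Measure (E n)) hr.ne'
  have h1 : ∫⁻ x, ({x | g x ^ 2 ≤ t} : Set (E n)).indicator
      (fun x => ENNReal.ofReal (‖T x‖ ^ 2)) x ∂(Measure.map (fun x : E n => r • x) volume) =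
      ∫⁻ x, ({x | g x ^ 2 ≤ t} : Set (E n)).indicator
        (fun x => ENNReal.ofReal (‖T x‖ ^ 2)) (r • x) :=
    lintegral_map (hmT.indicator hm1) (measurable_const_smul r)
  have h2 : ∀ x : E n, ({x | g x ^ 2 ≤ t} : Set (E n)).indicator
      (fun x => ENNReal.ofReal (‖T x‖ ^ 2)) (r • x) = ENNReal.ofReal t *
      ({x | g x ≤ 1} : Set (E n)).indicator (fun x => ENNReal.ofReal (‖T x‖ ^ 2)) x := by
    intro x
    have e1 : g (r • x) ^ 2 = t * g x ^ 2 := by
      rw [hg.smul, abs_of_pos hr, mul_pow, hr2]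
    have e2 : g (r • x) ^ 2 ≤ t ↔ g x ≤ 1 := by
      rw [e1]
      constructor
      · intro h
        have : g x ^ 2 ≤ 1 := by
          by_contra hcon
          push Not at hcon
          nlinarith
        nlinarith [nonneg hg x]
      · intro h
        have : g x ^ 2 ≤ 1 := pow_le_one₀ (nonneg hg x) h
        nlinarith
    have e3 : ENNReal.ofReal (‖T (r • x)‖ ^ 2) = ENNReal.ofReal t * ENNReal.ofReal (‖T x‖ ^ 2) := by
      rw [← ENNReal.ofReal_mul ht.le, map_smul, norm_smul, mul_pow, Real.norm_eq_abs, sq_abs, hr2]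
    by_cases h : g x ≤ 1
    · rw [indicator_of_mem (show r • x ∈ {x | g x ^ 2 ≤ t} from e2.2 h),
        indicator_of_mem (show x ∈ {x | g x ≤ 1} from h)]
      exact e3
    · rw [indicator_of_notMem (show r • x ∉ {x | g x ^ 2 ≤ t} from fun h' => h (e2.1 h')),
        indicator_of_notMem (show x ∉ {x | g x ≤ 1} from h), mul_zero]
  rw [hmap, lintegral_smul_measure, lintegral_indicator hm1] at h1
  simp only [h2] at h1
  rw [lintegral_const_mul _ (hmT.indicator hm2), lintegral_indicator hm2] at h1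
  have hfr : Module.finrank ℝ (E n) = n := finrank_euclideanSpace_fin
  rw [hfr, abs_of_pos (by positivity), smul_eq_mul] at h1
  have h3 : ENNReal.ofReal (r ^ n) * ENNReal.ofReal ((r ^ n)⁻¹) = 1 := by
    rw [← ENNReal.ofReal_mul (by positivity), mul_inv_cancel₀ (by positivity), ENNReal.ofReal_one]
  have h4 : ENNReal.ofReal (t ^ ((n : ℝ) / 2 + 1)) = ENNReal.ofReal (r ^ n) * ENNReal.ofReal t := by
    rw [← ENNReal.ofReal_mul (by positivity)]
    congr 1
    rw [Real.rpow_add ht, Real.rpow_one, hrdef, Real.sqrt_eq_rpow, ← Real.rpow_natCast,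
      ← Real.rpow_mul ht.le]
    congr 2
    ring
  rw [h4, mul_assoc, ← h1, ← mul_assoc, h3, one_mul]

theorem t_MOM : S_MOM := by
  intro n g T hn hg
  have hm2 : MeasurableSet {x : E n | g x ≤ 1} :=
    (isClosed_le hg.cont continuous_const).measurableSet
  have hgm : Measurable g := hg.cont.measurable
  have hmT : Measurable fun x : E n => ENNReal.ofReal (‖T x‖ ^ 2) := by fun_prop
  have hs : (0 : ℝ) < (n : ℝ) / 2 + 2 := by positivity
  set J := ∫⁻ x in {x : E n | g x ≤ 1}, ENNReal.ofReal (‖T x‖ ^ 2) with hJ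
  have key : ∫⁻ x : E n, ENNReal.ofReal (‖T x‖ ^ 2 * Real.exp (-(g x ^ 2))) =
      ENNReal.ofReal (Real.Gamma ((n : ℝ) / 2 + 2)) * J := by
    have e1 : ∀ x : E n, ENNReal.ofReal (‖T x‖ ^ 2 * Real.exp (-(g x ^ 2))) =
        ∫⁻ t in Ioi (0 : ℝ), ENNReal.ofReal (‖T x‖ ^ 2) *
          ({p : E n × ℝ | g p.1 ^ 2 ≤ p.2} : Set (E n × ℝ)).indicator
            (fun p => ENNReal.ofReal (Real.exp (-p.2))) (x, t) := by
      intro x
      rw [ENNReal.ofReal_mul (by positivity), ← layer (g x ^ 2) (by positivity),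
        ← lintegral_const_mul]
      · refine lintegral_congr fun t => ?_
        congr 1
      · exact Measurable.indicator (by fun_prop) measurableSet_Ici
    have hset : MeasurableSet {p : E n × ℝ | g p.1 ^ 2 ≤ p.2} :=
      measurableSet_le (by fun_prop) (by fun_prop)
    have hmeas : Measurable fun p : E n × ℝ => ENNReal.ofReal (‖T p.1‖ ^ 2) *
        ({p : E n × ℝ | g p.1 ^ 2 ≤ p.2} : Set (E n × ℝ)).indicator
          (fun p => ENNReal.ofReal (Real.exp (-p.2))) p := by
      refine Measurable.mul (by fun_prop) (Measurable.indicator (by fun_prop) hset)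
    simp only [e1]
    rw [lintegral_lintegral_swap hmeas.aemeasurable]
    have e2 : ∀ t ∈ Ioi (0 : ℝ), ∫⁻ x : E n, ENNReal.ofReal (‖T x‖ ^ 2) *
          ({p : E n × ℝ | g p.1 ^ 2 ≤ p.2} : Set (E n × ℝ)).indicator
            (fun p => ENNReal.ofReal (Real.exp (-p.2))) (x, t) =
        ENNReal.ofReal (Real.exp (-t) * t ^ ((n : ℝ) / 2 + 2 - 1)) * J := by
      intro t ht
      have hm1 : MeasurableSet {x : E n | g x ^ 2 ≤ t} :=
        (isClosed_le (hg.cont.pow 2) continuous_const).measurableSet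
      have e3 : ∀ x : E n, ENNReal.ofReal (‖T x‖ ^ 2) *
          ({p : E n × ℝ | g p.1 ^ 2 ≤ p.2} : Set (E n × ℝ)).indicator
            (fun p => ENNReal.ofReal (Real.exp (-p.2))) (x, t) =
          ENNReal.ofReal (Real.exp (-t)) * ({x : E n | g x ^ 2 ≤ t} : Set (E n)).indicator
            (fun x => ENNReal.ofReal (‖T x‖ ^ 2)) x := by
        intro x
        by_cases h : g x ^ 2 ≤ t
        · rw [indicator_of_mem (show (x, t) ∈ {p : E n × ℝ | g p.1 ^ 2 ≤ p.2} from h),
            indicator_of_mem (show x ∈ {x : E n | g x ^ 2 ≤ t} from h), mul_comm]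
        · rw [indicator_of_notMem (show (x, t) ∉ {p : E n × ℝ | g p.1 ^ 2 ≤ p.2} from h),
            indicator_of_notMem (show x ∉ {x : E n | g x ^ 2 ≤ t} from h), mul_zero, mul_zero]
      simp only [e3]
      rw [lintegral_const_mul _ (hmT.indicator hm1), lintegral_indicator hm1, scale hg T t ht,
        ← mul_assoc, ← ENNReal.ofReal_mul (Real.exp_pos _).le]
      congr 4
      ring
    rw [setLIntegral_congr_fun measurableSet_Ioi e2]
    rw [lintegral_mul_const _ (by fun_prop)]
    rw [Real.Gamma_eq_integral hs, ofReal_integral_eq_lintegral_ofReal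
      (Real.GammaIntegral_convergent hs)]
    refine (ae_restrict_iff' measurableSet_Ioi).2 (Eventually.of_forall fun t ht => ?_)
    have : (0 : ℝ) < t := ht
    positivity
  rw [integral_eq_lintegral_of_nonneg_ae (Eventually.of_forall fun x => by positivity)
    (by fun_prop), key, ENNReal.toReal_mul, ENNReal.toReal_ofReal (Real.Gamma_pos_of_pos hs).le,
    integral_eq_lintegral_of_nonneg_ae (Eventually.of_forall fun x => by positivity)
      (by fun_prop)]

end Pool.Agent.V5helper6.IK
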